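import Pool.Agent.H27.QG

namespace Pool.Agent.Results.MP_40e425_nt.Fifth
open Finset Polynomial Pool.Agent.H27.QC Pool.Agent.H27.QC.Loc Pool.Agent.H27.QD
open Pool.Agent.H27.QF Pool.Agent.H27.QG

/-- the `q`-integer `[N]` -/
def qint {K : Type*} [Field K] (q : K) (N : ℕ) : K := (1 - q ^ N) / (1 - q)

/-- `a_k(q)`, the product over `j = i + 1` from `1` to `k` -/
def a {K : Type*} [Field K] (q : K) (k : ℕ) : K := ∏ i ∈ range k,
  (1 - q ^ (2 * i + 1)) ^ 4 * (1 - q ^ (4 * i + 2))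
    / ((1 - q ^ (2 * i + 2)) ^ 4 * (1 - q ^ (4 * i + 4)))

/-- `c_k` -/
def c (k : ℕ) : ℚ := (1 / 4 ^ k * ((2 * k).choose k : ℚ)) ^ 5

/-- `S_{m,n}(q)` -/
def S {K : Type*} [Field K] (q : K) (m n : ℕ) : K :=
  ∑ k ∈ range (m * n), (-1) ^ k * qint q (4 * k + 1) * a q k * q ^ k

/-- `λ_n(q)` -/
def lam {K : Type*} [Field K] (q : K) (n : ℕ) : K :=
  qint q n * ∏ i ∈ range ((n - 1) / 4), ((1 - q ^ (4 * i + 2)) / (1 - q ^ (4 * i + 4))) ^ 2

/-- `T_{m,n}(q)` -/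
def T {K : Type*} [Field K] (q : K) (m n : ℕ) : K :=
  lam q n * ((∑ k ∈ range m, (-1) ^ k * (4 * k + 1) * c k : ℚ) : K)

/-- congruence modulo `Φ_n(q) ^ 3` -/
def Cong (n : ℕ) (A B : RatFunc ℚ) : Prop := ∃ C D : ℚ[X], IsCoprime D (cyclotomic n ℚ ^ 3) ∧
  A - B = algebraMap _ _ (cyclotomic n ℚ ^ 3 * C) / algebraMap _ _ D

theorem c_eq (k : ℕ) : c k = ww k ^ 5 := by
  rw [c]
  congr 1
  induction k with
  | zero => simp [ww, asc]
  | succ k ih =>
    have := Nat.succ_mul_centralBinom_succ k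
    rw [Nat.centralBinom_eq_two_mul_choose, Nat.centralBinom_eq_two_mul_choose] at this
    have h : ((k : ℚ) + 1) * ((2 * (k + 1)).choose (k + 1) : ℚ)
        = 2 * (2 * k + 1) * ((2 * k).choose k : ℚ) := by exact_mod_cast this
    rw [ww_succ, ← ih, (eq_inv_mul_iff_mul_eq₀ (by positivity)).mpr h]
    field_simp
    ring

variable {K : Type*} [Field K]

theorem a_eq (q : K) (k : ℕ) : a q k = rho (q ^ 1) k 1 ^ 4 * rho (q ^ 2) k 1 := by
  rw [a, rho, rho, ← prod_pow, ← prod_mul_distrib]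
  refine prod_congr rfl fun i _ => ?_
  rw [div_pow, div_mul_div_comm]
  congr 3 <;> ring

def tt (q : K) (b : ℕ) (y : K) : K := (-1) ^ b * (1 - y ^ 2 * q ^ (4 * b + 1)) * q ^ b
  * rho (q ^ 1) b y ^ 4 * rho (q ^ 2) b (y ^ 2)

theorem vv_eq (q y : K) (hq : q ≠ 0) (hy : y ≠ 0) (h k : ℕ) :
    vv (y ^ 2 * q) q ((q ^ 2) ^ h) k = (-1) ^ k * q ^ k * rho (q ^ 2) k (y ^ 2)
      * (rho (q ^ 1) k (y * y) * rho (q ^ 1) k (y * y⁻¹) * (rho (q ^ 1) k (y * (y * q ^ (2 * h + 1)))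
        * rho (q ^ 1) k (y * (y * q ^ (2 * h + 1))⁻¹))) := by
  rw [← mul_pow, ← card_range k, ← prod_const, card_range, rho, rho, rho, rho, rho,
    ← prod_mul_distrib, ← prod_mul_distrib, ← prod_mul_distrib, ← prod_mul_distrib,
    ← prod_mul_distrib, vv]
  refine prod_congr rfl fun i _ => ?_
  have hw : (q ^ 2) ^ h ≠ 0 := pow_ne_zero _ (pow_ne_zero _ hq)
  rw [st, ← mul_div_assoc (-1 * q)]
  simp only [div_mul_div_comm]
  rw [← mul_div_mul_right _ _ (inv_ne_zero hw)]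
  refine congrArg₂ (fun x y : K => x / y) ?_ ?_ <;> field_simp <;> ring

variable [CharZero K] {L : Loc K}

theorem one_case (hn : L.n = 1) (k : ℕ) :
    N3 L (qint L.q (4 * k + 1) * a L.q k * L.q ^ k / ((4 * k + 1) * (ww k : K) ^ 5)) 0 0 := by
  have g := fun j => N3.geom (L := L) (by omega) j
  have q1 := N3.qn (L := L)
  rw [hn, pow_one] at g q1
  have h1 : 1 - L.q ≠ 0 := by simpa using L.ne 1 one_pos
  induction k with
  | zero => exact N3.one.congr (by simp [qint, a, ww, asc, div_self h1]) rfl rfl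
  | succ k ih =>
    refine ((((((ih.mul (g (4 * k + 4))).mul (g (4 * k)).inv).mul q1).mul
      (((g (2 * k)).mul (g (2 * k + 1)).inv).pow 4)).mul (g (4 * k + 1))).mul
        (g (4 * k + 3)).inv).congr ?_ (by push_cast; ring) (by push_cast; ring)
    have b1 := L.ne (4 * k + 1) (by omega)
    have b2 := L.ne (2 * k + 2) (by omega)
    have b3 := L.ne (4 * k + 4) (by omega)
    have b4 : (ww k : K) ≠ 0 := by
      have : ww k ≠ 0 := by unfold ww asc; positivity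
      exact_mod_cast this
    have b5 : ∀ j : ℕ, (j : K) + 1 ≠ 0 := fun j => by exact_mod_cast Nat.succ_ne_zero j
    have c1 := b5 (4 * k)
    have c2 := b5 (2 * k)
    have c3 := b5 k
    have c4 := b5 (4 * k + 4)
    rw [a, a, prod_range_succ, ← a, ww_succ, qint, qint, show 4 * (k + 1) + 1 = 4 * k + 4 + 1 by ring,
      show 2 * k + 1 + 1 = 2 * k + 2 by ring, show 4 * k + 1 + 1 = 4 * k + 2 by ring,
      show 4 * k + 3 + 1 = 4 * k + 4 by ring, pow_succ L.q k]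
    push_cast at *
    rw [show 4 * ((k : K) + 1) + 1 = 4 * k + 4 + 1 by ring, show 2 * (k : K) + 2 = 2 * (k + 1) by ring,
      show 2 * (k : K) + 1 + 1 = 2 * (k + 1) by ring, show 4 * (k : K) + 3 + 1 = 4 * (k + 1) by ring,
      show 4 * (k : K) + 1 + 1 = 2 * (2 * k + 1) by ring]
    generalize 1 - L.q ^ (4 * k + 4 + 1) = B1 at *
    generalize 1 - L.q ^ (4 * k + 4) = B2 at *
    generalize 1 - L.q ^ (4 * k + 2) = B3 at *
    generalize 1 - L.q ^ (4 * k + 1) = B4 at *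
    generalize 1 - L.q ^ (2 * k + 2) = B5 at *
    generalize 1 - L.q ^ (2 * k + 1) = B6 at *
    generalize 4 * (k : K) + 4 + 1 = C1 at *
    generalize 4 * (k : K) + 1 = C2 at *
    generalize 2 * (k : K) + 1 = C3 at *
    generalize (k : K) + 1 = C4 at *
    generalize 1 - L.q = C5 at *
    field_simp
    ring

theorem TG_sq {f : K → K} (hf : L.TG f) : L.TG fun y => f (y ^ 2) := by
  obtain ⟨h1, D, hD, h⟩ := hf
  refine ⟨by simpa using h1, 2 * D, mul_mem (L.nat_mem 2) hD, fun y c hc hy => ?_⟩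
  have := Nr.pow ⟨hc, hy⟩ 2
  exact (h _ _ this.1 this.2).of_sub (by push_cast; ring)

variable {s : ℕ} (hn : L.n = 2 * (2 * s) + 1)
include hn

theorem tt_TG {b : ℕ} (hb : b < L.n) : L.TG (tt L.q b) :=
  ((((TG.const (pow_mem (neg_mem (one_mem _)) b)).mul ((TG.const (one_mem _)).sub
    ((TG.id.pow 2).mul (TG.const (L.qp _))))).mul (TG.const (L.qp _))).mul
      ((rho_TG hn (hs1 hn) hb).pow 4)).mul (TG_sq (rho_TG hn (hs2 hn) hb))

theorem tt_refl {b d : ℕ} (hd : d + b = 2 * s) : L.E 1 (tt L.q d 1) (-tt L.q b 1) := by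
  have q0 := L.q0
  have Q := N3.nr (N3.qn (L := L))
  have a0 := rho_half hn (hs1 hn)
  have a1 := rho_half hn (hs2 hn)
  have a2 := ((Nr.qn (L := L) 2).mul (Nr.qn (3 * (2 * s) + 1)).inv).near
  rw [(even_two_mul s).neg_one_pow] at a0 a1
  have hT := tt_TG hn (b := b) (by omega)
  refine (((((a0.pow (one_mem _) 4).mul a1 (pow_mem (one_mem _) 4) (one_mem _)).mul a2
    (mul_mem (pow_mem (one_mem _) 4) (one_mem _)) (one_mem _)).mul (hT.near Q.inv.1 Q.inv.2)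
      (mul_mem (mul_mem (pow_mem (one_mem _) 4) (one_mem _)) (one_mem _)) hT.1).neg).of_sub ?_
  have e : (-1 : K) ^ d = (-1) ^ b := by
    have : (-1 : K) ^ d * (-1) ^ b = 1 := by rw [← pow_add, hd, (even_two_mul s).neg_one_pow]
    have h2 : (-1 : K) ^ b * (-1) ^ b = 1 := by rw [← pow_add, (Even.add_self b).neg_one_pow]
    linear_combination (-1) ^ b * this - (-1) ^ d * h2
  generalize tt L.q b 1 = t
  rw [tt, tt, one_pow, rho_reflect hn (hs1 hn) hd (z := (L.q ^ L.n)⁻¹) Nr.one (by field_simp),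
    rho_reflect hn (hs2 hn) hd (z := (L.q ^ L.n)⁻¹ ^ 2) Nr.one (by field_simp), e, hn]
  generalize rho (L.q ^ 1) (2 * s) 1 = A
  generalize rho (L.q ^ 2) (2 * s) 1 = A'
  generalize rho (L.q ^ 1) b (L.q ^ (2 * (2 * s) + 1))⁻¹ = B
  generalize rho (L.q ^ 2) b ((L.q ^ (2 * (2 * s) + 1))⁻¹ ^ 2) = B'
  rw [← hd]
  field_simp
  ring

theorem sym_zero : L.E 1 (∑ b ∈ range (2 * s + 1), sg L.q b * tt L.q b 1) 0 := by
  have hm : ∀ b, b ≤ 2 * s → sg L.q b ∈ L.O := fun b hb => by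
    simpa using (rho_pair3 hn hb Nr.one (N3.nr N3.qn)).2.1
  have h0 : L.E 1 (2 * sg L.q (2 * s)) (2 * 0) :=
    (sg_refl hn (b := 2 * s) (b' := 0) (by simp)).symm.of_sub (by simp [sg]; ring)
  have u2 : L.U 2 := by simpa using U.nat (L := L) (a := 2) (by norm_num)
  have h1 : L.E 1 (∑ b ∈ range (2 * s + 1), sg L.q (2 * s + 1 - 1 - b) * tt L.q (2 * s + 1 - 1 - b) 1)
      (∑ b ∈ range (2 * s + 1), -(sg L.q b * tt L.q b 1)) := by
    refine E.sum _ fun b hb => ?_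
    have hb' := mem_range.mp hb
    have hd : 2 * s + 1 - 1 - b + b = 2 * s := by omega
    exact ((((sg_refl hn hd).add (h0.cancel u2)).of_sub (y' := sg L.q b)
      (x' := sg L.q (2 * s + 1 - 1 - b)) (by ring)).mul
      (tt_refl hn hd) (hm b (by omega)) (neg_mem (tt_TG hn (by omega)).1)).of_sub (by ring)
  rw [sum_range_reflect (fun b => sg L.q b * tt L.q b 1), sum_neg_distrib] at h1
  exact E.cancel (h1.of_sub (by ring)) u2

theorem G_all (r : ℕ) : L.E 3 (∑ b ∈ range L.n, tt L.q b ((L.q ^ L.n) ^ (2 * r)))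
    ((1 - (L.q ^ L.n) ^ (4 * r + 1)) * (rho (L.q ^ 1) (2 * s) ((L.q ^ L.n) ^ (4 * r))
      / rho (L.q ^ 1) (2 * s) 1) * (rho (L.q ^ 2) s 1 * rho (L.q ^ 2) s ((L.q ^ L.n) ^ (4 * r)))) := by
  have q0 := L.q0
  have Q := N3.nr (N3.qn (L := L))
  have hY := Nr.qn (L := L) (2 * r)
  have k0 := watson (((L.q ^ L.n) ^ (2 * r)) ^ 2 * L.q) L.q L.q0 (fun j => L.ne _ (by omega))
    (fun _ _ => q_inj) (fun j => by
      have := L.ne (L.n * (2 * r) * 2 + 1 + j) (by omega)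
      rwa [show L.q ^ (L.n * (2 * r) * 2 + 1 + j) = ((L.q ^ L.n) ^ (2 * r)) ^ 2 * L.q * L.q ^ j by
        ring] at this) s
  rw [mul_div_cancel_right₀ _ q0, mul_assoc _ L.q, ← pow_mul L.q 2 (2 * s), ← pow_succ', ← hn] at k0
  rw [show (L.q ^ L.n) ^ (4 * r + 1) = ((L.q ^ L.n) ^ (2 * r)) ^ 2 * L.q ^ L.n by ring,
    show (L.q ^ L.n) ^ (4 * r) = ((L.q ^ L.n) ^ (2 * r)) ^ 2 by ring, ← k0]
  generalize (L.q ^ L.n) ^ (2 * r) = y at *
  have k3 : L.E 3 (∑ b ∈ range L.n, tt L.q b y) (∑ b ∈ range (2 * s + 1), tt L.q b y) := by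
    rw [show L.n = 2 * s + 1 + 2 * s by omega, sum_range_add]
    refine (E.sum (range (2 * s)) (f := fun b => tt L.q (2 * s + 1 + b) y)
      (g := fun _ => 0) fun b hb => ?_).of_sub (by simp)
    have hb' : 2 * s + 1 + b < L.n := by have := mem_range.mp hb; omega
    have z := rho_zero hn (hs1 hn) hb' (by omega) hY
    refine (((z.mul_zero z).mul_zero z).smul (mul_mem (mul_mem (mul_mem (mul_mem
      (pow_mem (neg_mem (one_mem _)) (2 * s + 1 + b)) (sub_mem (one_mem _) (mul_mem (pow_mem hY.U.1 2)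
        (L.qp (4 * (2 * s + 1 + b) + 1))))) (L.qp (2 * s + 1 + b))) (rho_mem hn (hs1 hn) hb' hY))
          (rho_mem hn (hs2 hn) hb' (hY.pow 2)))).of_sub ?_
    unfold tt; ring
  have hκ : ((2 * r : ℕ) : K) ^ 2 + (((2 * r : ℕ) : K) + 1) ^ 2 ∈ L.O :=
    add_mem (pow_mem hY.1 2) (pow_mem (add_mem hY.1 (one_mem _)) 2)
  have k4 : L.E 3 (∑ b ∈ range (2 * s + 1), (1 - y ^ 2 * L.q * ((L.q ^ 2) ^ b) ^ 2)
      * vv (y ^ 2 * L.q) L.q (L.q ^ (2 * (2 * s))) b) (∑ b ∈ range (2 * s + 1), (tt L.q b y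
        + (((2 * r : ℕ) : K) ^ 2 + (((2 * r : ℕ) : K) + 1) ^ 2)
          * (L.e * (L.e * (sg L.q b * tt L.q b 1))))) := by
    refine E.sum _ fun b hb => ?_
    have hb' : b ≤ 2 * s := by have := mem_range.mp hb; omega
    have hT := tt_TG hn (b := b) (by omega)
    have h1 := (rho_pair3 hn hb' hY hY).mul (rho_pair3 hn hb' hY (hY.mul Q))
    have h2 := hT.near hY.1 hY.2
    refine ((h1.2.2.smul (h2.mem hT.1)).add (h2.smul h1.2.1).e_mul.e_mul).of_sub ?_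
    have := (rho_U hn (hs1 hn) hb' hY).2.2
    rw [pow_mul L.q 2 (2 * s), vv_eq _ _ q0 hY.U.2.2, ← hn]
    generalize tt L.q b 1 = t
    unfold tt
    generalize rho (L.q ^ 1) b = f at *
    field_simp
    ring
  refine ((k3.sub k4).sub ((sym_zero hn).e_mul.e_mul.smul hκ)).of_sub ?_
  rw [sum_add_distrib, ← mul_sum, ← mul_sum, ← mul_sum]
  ring

theorem main (hs : 0 < s) (m : ℕ) : L.E 3 (S L.q m L.n) (T L.q m L.n) := by
  have hU : L.U (1 - L.q) := by
    simpa using U.sub (L := L) (j := 1) (by rw [Nat.dvd_one]; omega)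
  have q0 := L.q0
  have hR := rho_U hn (hs1 hn) le_rfl (Nr.one (L := L))
  have hR' := rho_U hn (hs2 hn) (b := s) (by omega) (Nr.one (L := L))
  obtain ⟨l, -, hl⟩ := TG_nr (rho_TG hn (hs1 hn) (b := 2 * s) (by omega)) hR
  obtain ⟨l', -, hl'⟩ := TG_nr (rho_TG hn (hs2 hn) (b := s) (by omega)) hR'
  have hl2 : ∀ y c, Nr L y c → Nr L (rho (L.q ^ 2) (2 * s) y / rho (L.q ^ 2) (2 * s) 1)
      (c * (2 * l')) := fun y c hy => by
    have hz := (hy.mul (Nr.qn 2)).inv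
    have hz' := (Nr.qn (L := L) 2).inv
    refine (((hl' _ _ hy).mul (hl' _ _ hz')).mul (hl' _ _ hz).inv).congr ?_ (by push_cast; ring)
    have y0 := hy.U.2.2
    have e1 := rho_reflect hn (hs2 hn) (two_mul s).symm (z := (y * (L.q ^ L.n) ^ 2)⁻¹) hy
      (by field_simp)
    have e2 := rho_reflect hn (hs2 hn) (two_mul s).symm (z := ((L.q ^ L.n) ^ 2)⁻¹) Nr.one
      (by field_simp)
    have u1 := (rho_U hn (hs2 hn) (b := s) (by omega) hz).2.2
    have u2 := (rho_U hn (hs2 hn) (b := s) (by omega) hz').2.2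
    have u3 := (rho_U hn (hs2 hn) le_rfl (Nr.one (L := L))).2.2
    have u4 := hR'.2.2
    rw [e1]
    nth_rewrite 1 [e2]
    generalize rho (L.q ^ 2) s = f at *
    generalize rho (L.q ^ 2) (2 * s) = f' at *
    generalize (y * (L.q ^ L.n) ^ 2)⁻¹ = z at *
    generalize ((L.q ^ L.n) ^ 2)⁻¹ = z' at *
    field_simp
  have e1 : ∏ i ∈ range ((L.n - 1) / 4), ((1 - L.q ^ (4 * i + 2)) / (1 - L.q ^ (4 * i + 4))) ^ 2
      = rho (L.q ^ 2) s 1 ^ 2 := by
    rw [show (L.n - 1) / 4 = s by omega, rho, ← prod_pow]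
    exact prod_congr rfl fun i _ => by congr 3 <;> ring
  rw [S, T, lam, e1, sum_blocks, Rat.cast_sum, mul_sum]
  refine E.sum _ fun r _ => ?_
  have hw : L.U (ww r : K) := U.rat (by unfold ww asc; positivity)
  have k1 := (((rho_blocks hn (hs1 hn) one_ne_zero hl r).pow 4).mul
    (rho_blocks hn (hs2 hn) two_ne_zero hl2 r)).mul (Nr.qn r)
  have k2 := (((k1.mul (hl _ _ (Nr.qn (4 * r)))).mul (hl' _ _ (Nr.qn (4 * r)))).mul
    (N3.geom (by omega) (4 * r)).nr).congr rfl (show _ = 0 by push_cast; ring)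
  have k3 : L.E 1 (1 - L.q ^ L.n) 0 := ⟨-1, neg_mem (one_mem _), by unfold e; ring⟩
  refine ((((G_all hn r).smul k1.U.1).add ((k2.2.mul_zero k3).smul
    (mul_mem (L.nat_mem (4 * r + 1)) (pow_mem hR'.1 2)))).smul
      (div_mem' (mul_mem (pow_mem (neg_mem (one_mem _)) r) (pow_mem hw.1 5)) hU)).of_sub ?_
  have e3 : ∀ b, (-1) ^ (r * L.n + b) * qint L.q (4 * (r * L.n + b) + 1) * a L.q (r * L.n + b)
      * L.q ^ (r * L.n + b) = (-1) ^ r * rho (L.q ^ 1) (r * L.n) 1 ^ 4 * rho (L.q ^ 2) (r * L.n) 1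
        * (L.q ^ L.n) ^ r / (1 - L.q) * tt L.q b ((L.q ^ L.n) ^ (2 * r)) := by
    intro b
    have : (-1 : K) ^ (r * L.n + b) = (-1) ^ r * (-1) ^ b := by
      rw [pow_add, mul_comm r, pow_mul, Odd.neg_one_pow ⟨_, hn⟩]
    rw [a_eq, rho_add, rho_add, this, tt, qint,
      show 1 * (L.q ^ 1) ^ (2 * (r * L.n)) = (L.q ^ L.n) ^ (2 * r) by ring,
      show 1 * (L.q ^ 2) ^ (2 * (r * L.n)) = ((L.q ^ L.n) ^ (2 * r)) ^ 2 by ring]
    ring
  simp only [e3]
  rw [← mul_sum, c_eq, qint]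
  have := hw.2.2
  have := hU.2.2
  have := hR'.2.2
  have := L.ne L.n (by omega)
  have : 4 * (r : K) + 1 ≠ 0 := by exact_mod_cast (by omega : 4 * r + 1 ≠ 0)
  push_cast
  generalize ∑ i ∈ range L.n, tt L.q i ((L.q ^ L.n) ^ (2 * r)) = G
  generalize rho (L.q ^ 1) (2 * s) ((L.q ^ L.n) ^ (4 * r)) / rho (L.q ^ 1) (2 * s) 1 = A
  generalize (L.q ^ L.n) ^ (4 * r + 1) = Z
  generalize rho (L.q ^ 2) = f at *
  field_simp
  ring

omit hn in
theorem result (m n : ℕ) (_hm : 1 ≤ m) (h4 : n % 4 = 1) :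
    Cong n (S RatFunc.X m n) (T RatFunc.X m n) := by
  have hn : 0 < n := by omega
  have : (cycL n hn).E 3 (S RatFunc.X m n) (T RatFunc.X m n) := by
    rcases Nat.eq_zero_or_pos (n / 4) with h | h
    · obtain rfl : n = 1 := by omega
      have h1 : (1 - RatFunc.X : RatFunc ℚ) ≠ 0 := by
        have := (cycL 1 one_pos).ne 1 one_pos
        rwa [pow_one] at this
      rw [S, T, mul_one, Rat.cast_sum, mul_sum]
      refine E.sum _ fun k _ => ?_
      have hw : (cycL 1 hn).U (ww k : RatFunc ℚ) := U.rat (by unfold ww asc; positivity)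
      have hU := (U.nat (L := cycL 1 hn) (Nat.succ_ne_zero (4 * k))).mul (hw.pow 5)
      refine ((one_case (L := cycL 1 hn) rfl k).2.2.smul
        (mul_mem (pow_mem (neg_mem (one_mem _)) k) hU.1)).of_sub ?_
      have := hU.2.2
      push_cast at this ⊢
      rw [c_eq, lam, mul_assoc ((-1) ^ k) (_ * _) (_ / _), mul_div_cancel₀ _ this]
      simp [qint, div_self h1, cycL]
      ring
    · exact main (L := cycL n hn) (s := n / 4) (show n = _ by omega) h m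
  obtain ⟨A, B, hB, e⟩ := cyc_out hn this
  exact ⟨A, B, hB.pow_right, e⟩

end Pool.Agent.Results.MP_40e425_nt.Fifth
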